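import Pool.Agent.H97.PRP.Targets2
import Pool.Agent.H89.PRK.DEF

/-!
# SHR. An element of a small ordinal definable set which is unbounded in `α` is not small
(MP_e37c09_lc)
-/

open Ordinal Cardinal Order Set
open scoped ZFSet

universe u

namespace Pool.Agent.H19.PRP

open _root_.HD HD.PRK HD.PRP

/-- the ordinals below `α` in the small elements of `Z` -/
def SHRu (D : Cardinal.{u}) (α : Ordinal.{u}) (Z : ZFSet.{u}) : Set Ordinal.{u} :=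
  {b | b < α ∧ ∃ Y ∈ Z, (∃ ν < D, NF.Sz ν Y) ∧ b.toZFSet ∈ Y}

theorem SHR_ds (D : Cardinal.{u}) (α : Ordinal.{u}) {Z : ZFSet.{u}} (hZ : OD Z) :
    DS (SHRu D α Z) := by
  have h1 : DZ.{u} fun v => ∃ Y ∈ Z, (∃ ν < D, NF.Sz ν Y) ∧ v 0 ∈ Y :=
    DZ.od (R := fun Z' v => ∃ Y ∈ Z', (∃ ν < D, NF.Sz ν Y) ∧ v 0 ∈ Y) hZ
      (DZ.exMem (R := fun Y v => (∃ ν < D, NF.Sz ν Y) ∧ v 1 ∈ Y) 0
        ((Pool.Agent.H89.PRK.def_dz_few D 0).and (DZ.mem 2 0)))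
  exact (DO.ltc 0 α).and h1.do

/-- small subsets of `α`, as sets of ordinals -/
theorem SHR_few {D : Cardinal.{u}} {Y : ZFSet.{u}} (h : ∃ ν < D, NF.Sz ν Y) :
    Few D.ord {b | b.toZFSet ∈ Y} := by
  obtain ⟨ν, hν, e, he⟩ := h
  refine ⟨ν.ord, Cardinal.ord_lt_ord.2 hν, fun a => (e a).rank, fun x hx => ?_⟩
  obtain ⟨a, ha, hxa⟩ := he x.toZFSet hx
  exact ⟨a, ha, by simp only [← hxa, rank_toZFSet]⟩

theorem SHR_sz {D : Cardinal.{u}} {α : Ordinal.{u}} {B : ZFSet.{u}} (hB : B ⊆ α.toZFSet)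
    (h : Few D.ord {a | a.toZFSet ∈ B}) : ∃ ν < D, NF.Sz ν B := by
  obtain ⟨τ, hτ, e, he⟩ := h
  obtain ⟨e', he'⟩ := Pool.Agent.H89.PRK.def_reidx τ
  refine ⟨τ.card, Cardinal.lt_ord.1 hτ, fun a => (e (e' a)).toZFSet, fun x hx => ?_⟩
  obtain ⟨c, -, rfl⟩ := mem_toZFSet_iff.1 (hB hx)
  obtain ⟨b, hb, hbc⟩ := he c hx
  obtain ⟨a, ha, hab⟩ := he' b hb
  exact ⟨a, ha, by simp only [hab, hbc]⟩

theorem pf_SHR : T_SHR.{u} := by
  intro D hD hD0 α hreg hDα Z hZ hZs B hBZ hBα hunb hfew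
  have hBs := SHR_sz hBα hfew
  refine hreg (SHRu D α Z) (SHR_ds D α hZ) ?_ ?_
  · intro b hb
    obtain ⟨c, hc, hbc, hcB⟩ := hunb b hb
    exact ⟨c, hc, hbc, hc, B, hBZ, hBs, hcB⟩
  · obtain ⟨ν, hν, e, he⟩ := hZs
    rw [few_iff]
    have hDle : D ≤ α.card := Cardinal.ord_le_ord.1 hDα
    refine lt_of_lt_of_le ?_ (Cardinal.lift_le.2 hDle)
    have hsub : SHRu D α Z ∩ Iio α ⊆ ⋃ i : Iio ν.ord,
        {b | (∃ ν < D, NF.Sz ν (e i.1)) ∧ b.toZFSet ∈ e i.1} := by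
      rintro b ⟨⟨-, Y, hYZ, hYs, hbY⟩, -⟩
      obtain ⟨a, ha, rfl⟩ := he Y hYZ
      exact mem_iUnion.2 ⟨⟨a, ha⟩, hYs, hbY⟩
    refine (Cardinal.mk_le_mk_of_subset hsub).trans_lt ?_
    have hι : #(Iio ν.ord) < Cardinal.lift.{u + 1} D := by
      rw [Cardinal.mk_Iio_ordinal, Cardinal.card_ord, Cardinal.lift_lt]
      exact hν
    rw [Cardinal.card_iUnion_lt_iff_forall_of_isRegular hD.lift hι]
    intro i
    by_cases hs : ∃ ν < D, NF.Sz ν (e i.1)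
    · rw [← few_iff]
      obtain ⟨τ, hτ, g, hg⟩ := SHR_few hs
      exact ⟨τ, hτ, g, fun x hx => hg x hx.2⟩
    · have h0 : {b : Ordinal.{u} | (∃ ν < D, NF.Sz ν (e i.1)) ∧ b.toZFSet ∈ e i.1} = ∅ := by
        ext b
        exact ⟨fun h => absurd h.1 hs, fun h => absurd h (notMem_empty b)⟩
      rw [h0, Cardinal.mk_eq_zero]
      exact lt_of_lt_of_le Cardinal.aleph0_pos hD.lift.aleph0_le

end Pool.Agent.H19.PRP
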