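import Pool.Agent.H97.PRP.Targets2
import Pool.Agent.H87.HD.XF

/-!
# TWS. Few splitting points for almost all small sets (MP_e37c09_lc)
-/

open Ordinal Cardinal Order Set
open scoped ZFSet

universe u

namespace Pool.Agent.H19.PRP

open _root_.HD HD.PRK HD.PRP

/-- the supremum of the image of `K` -/
theorem TWS_sup {δ η θ : Ordinal.{u}} {j : ZFSet.{u} → ZFSet.{u}} (hE : Emb δ η θ j)
    {K : Cardinal.{u}} (hK : K.IsRegular) (hKη : K.ord < η) : ∃ ρ : Ordinal.{u},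
    (∀ x < K.ord, Jo j x < ρ) ∧ ∀ y < ρ, ∃ x < K.ord, y < Jo j x := by
  have hex : ∃ ρ : Ordinal.{u}, ∀ x < K.ord, Jo j x < ρ :=
    ⟨θ, fun x hx => hE.Jo_lt (hx.trans hKη)⟩
  obtain ⟨ρ, hρ, hmin⟩ : ∃ ρ : Ordinal.{u}, (∀ x < K.ord, Jo j x < ρ) ∧
      ∀ y < ρ, ¬ ∀ x < K.ord, Jo j x < y := by
    refine ⟨sInf {ρ : Ordinal.{u} | ∀ x < K.ord, Jo j x < ρ}, csInf_mem hex, fun y hy h => ?_⟩
    have h2 : y ∈ {ρ : Ordinal.{u} | ∀ x < K.ord, Jo j x < ρ} := h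
    exact absurd (csInf_le' h2) (not_le.2 hy)
  have hlim : IsSuccLimit K.ord := Cardinal.isSuccLimit_ord hK.aleph0_le
  refine ⟨ρ, hρ, fun y hy => ?_⟩
  have h1 := hmin y hy
  push Not at h1
  obtain ⟨x, hx, hxy⟩ := h1
  have hsx : succ x < K.ord := hlim.succ_lt hx
  refine ⟨succ x, hsx, hxy.trans_lt ?_⟩
  exact (hE.lt_iff (hx.trans hKη) (hsx.trans hKη)).2 (lt_succ x)

/-- the first element of `S` which is at least `i` -/
noncomputable def TWSa (S : Set Ordinal.{u}) (i : Ordinal.{u}) : Ordinal.{u} :=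
  sInf {a | ∃ y, nth S a y ∧ i ≤ y}

/-- the transfer to the indices -/
theorem TWS_tr {μ κ ρ0 lam α δ : Ordinal.{u}} {F : ZFSet.{u}}
    (ha : ∀ a < α, ∃ z < lam, nth (SpS μ κ F) a z)
    (hb : ∀ z < lam, ∃ a < α, ∃ y, nth (SpS μ κ F) a y ∧ z < y)
    (hc : ∀ z < lam, ∃ i, z < i ∧ i < lam ∧ Spl μ ρ0 F i)
    (hf : Few δ {i | i < lam ∧ Spl μ ρ0 F i}) :
    (∀ b < α, ∃ c < α, b ≤ c ∧ c ∈ BB μ κ ρ0 lam F) ∧ Few δ (BB μ κ ρ0 lam F) := by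
  obtain ⟨-, vh2, -, -⟩ := HD.All.vh (SpS μ κ F)
  constructor
  · intro b hbα
    obtain ⟨z, hz, hnz⟩ := ha b hbα
    obtain ⟨i, hzi, hil, hiX⟩ := hc z hz
    obtain ⟨a, haα, y, hny, hiy⟩ := hb i hil
    have hne : (({a | ∃ y, nth (SpS μ κ F) a y ∧ i ≤ y} : Set Ordinal.{u})).Nonempty :=
      ⟨a, y, hny, hiy.le⟩
    have hmem : ∃ y, nth (SpS μ κ F) (TWSa (SpS μ κ F) i) y ∧ i ≤ y := csInf_mem hne
    have hle : TWSa (SpS μ κ F) i ≤ a :=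
      csInf_le' (show a ∈ {a | ∃ y, nth (SpS μ κ F) a y ∧ i ≤ y} from ⟨y, hny, hiy.le⟩)
    obtain ⟨y', hy', hiy'⟩ := hmem
    refine ⟨TWSa (SpS μ κ F) i, hle.trans_lt haα, ?_, y', i, hy', hiX, hil, hiy', ?_⟩
    · by_contra hlt
      push Not at hlt
      have h1 := (vh2 _ _ _ _ hy' hnz).1 hlt
      exact absurd (h1.trans hzi) (not_lt.mpr hiy')
    · intro a' y'' hy'' ha'
      by_contra hge
      push Not at hge
      have : TWSa (SpS μ κ F) i ≤ a' :=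
        csInf_le' (show a' ∈ {a | ∃ y, nth (SpS μ κ F) a y ∧ i ≤ y} from ⟨y'', hy'', hge⟩)
      exact absurd ha' (not_lt.mpr this)
  · obtain ⟨τ, hτ, e, he⟩ := hf
    refine ⟨τ, hτ, fun x => TWSa (SpS μ κ F) (e x), ?_⟩
    rintro a ⟨y, i, hy, hiX, hil, hiy, hmin⟩
    obtain ⟨x, hx, hex⟩ := he i ⟨hil, hiX⟩
    refine ⟨x, hx, ?_⟩
    simp only
    rw [hex]
    refine le_antisymm
      (csInf_le' (show a ∈ {a | ∃ y, nth (SpS μ κ F) a y ∧ i ≤ y} from ⟨y, hy, hiy⟩)) ?_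
    by_contra hlt
    push Not at hlt
    have hne : (({a | ∃ y, nth (SpS μ κ F) a y ∧ i ≤ y} : Set Ordinal.{u})).Nonempty :=
      ⟨a, y, hy, hiy⟩
    obtain ⟨y', hy', hiy'⟩ : ∃ y, nth (SpS μ κ F) (TWSa (SpS μ κ F) i) y ∧ i ≤ y :=
      csInf_mem hne
    exact absurd (hmin _ y' hy' hlt) (not_lt.mpr hiy')

theorem pf_TWS (h0 : T_LTS.{u}) (h1 : HD.PRK.T_AL.{u}) (h2 : HD.PRK.T_NBA.{u})
    (h3 : HD.PRK.T_CNA.{u}) (h4 : T_SHR.{u}) (h5 : T_BOD.{u}) : T_TWS.{u} := by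
  intro δ hext hA K hK hδK μ hμδ hωμ G hG
  by_contra hno
  push Not at hno
  obtain ⟨D, hD, hDr, -, hD0⟩ : ∃ D : Cardinal.{u}, δ = D.ord ∧ D.IsRegular ∧ D.IsStrongLimit ∧
      ℵ₀ < D := by
    obtain ⟨η, -, θ, j, h⟩ := HD.All.xa δ hext 0
    exact HD.All.xb δ η θ j h
  have hω : ω < δ := by
    rw [hD, ← Cardinal.ord_aleph0]
    exact Cardinal.ord_lt_ord.2 hD0
  have hcofδ : δ.cof.ord = δ := by
    rw [hD, hDr.cof_ord]
  obtain ⟨α, hδα, hreg, hlimα, hcofα⟩ := h1 δ hext hA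
  obtain ⟨β, hβ⟩ := HD.All.xc _ hG
  obtain ⟨η, hη, θ, j, h⟩ := HD.All.xa δ hext (max (max β K.ord) α)
  have hβη : β < η := lt_of_le_of_lt ((le_max_left _ _).trans (le_max_left _ _)) hη
  have hKη : K.ord < η := lt_of_le_of_lt ((le_max_right _ _).trans (le_max_left _ _)) hη
  have hαη : α < η := lt_of_le_of_lt (le_max_right _ _) hη
  obtain ⟨hGη, hODG⟩ := hβ δ η θ j h hβη
  have hδη : δ < η := h.dlt
  have hμη : μ < η := hμδ.trans hδη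
  obtain ⟨K', hK', hJK⟩ := HD.All.xd δ η θ j h K hK hKη
  have hKK' : K.ord ≤ K'.ord := by
    rw [← hJK]
    exact h.le_Jo hKη
  have hαK' : α < K'.ord := by
    rw [← hJK]
    exact (hαη.trans h.Jo_crit).trans ((h.lt_iff hδη hKη).2 hδK)
  -- elementarity
  have hl : ∀ x ∈ [μ.toZFSet, K.ord.toZFSet, G, δ.toZFSet], x ∈ V_ η := by
    simp only [List.mem_cons, List.not_mem_nil, or_false, forall_eq_or_imp, forall_eq]
    exact ⟨Gd.ord.2 hμη, Gd.ord.2 hKη, hGη, Gd.ord.2 hδη⟩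
  have htr := h.trl h0 [μ.toZFSet, K.ord.toZFSet, G, δ.toZFSet] hl
  have hpos : PosX μ K'.ord (fun s => ¬ Few (Jo j δ) (SpS μ K'.ord (Fs K'.ord (j G) s))) := by
    have h6 : μ.toZFSet.IsOrdinal ∧ K.ord.toZFSet.IsOrdinal ∧ δ.toZFSet.IsOrdinal ∧
        PosX μ.toZFSet.rank K.ord.toZFSet.rank (fun s => ¬ Few δ.toZFSet.rank
          (SpS μ.toZFSet.rank K.ord.toZFSet.rank (Fs K.ord.toZFSet.rank G s))) := by
      rw [rank_toZFSet, rank_toZFSet, rank_toZFSet]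
      exact ⟨ZFSet.isOrdinal_toZFSet _, ZFSet.isOrdinal_toZFSet _, ZFSet.isOrdinal_toZFSet _,
        hno⟩
    have h7 : (j μ.toZFSet).IsOrdinal ∧ (j K.ord.toZFSet).IsOrdinal ∧
        (j δ.toZFSet).IsOrdinal ∧
        PosX (j μ.toZFSet).rank (j K.ord.toZFSet).rank (fun s => ¬ Few (j δ.toZFSet).rank
          (SpS (j μ.toZFSet).rank (j K.ord.toZFSet).rank
            (Fs (j K.ord.toZFSet).rank (j G) s))) := htr.1 h6
    rw [h.fix _ hμδ, h.ord hKη, h.ord hδη, hJK, rank_toZFSet, rank_toZFSet, rank_toZFSet] at h7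
    exact h7.2.2.2
  -- the club set
  obtain ⟨C₁, hC₁, hNB⟩ := h2 δ hext hA K' hK' (hδK.trans_le hKK')
  have hC₂ : Clb K'.ord (C₁ ∩ {b | α < b}) := by
    constructor
    · intro a ha
      obtain ⟨b, hb, hab, hbC⟩ := hC₁.unb (max a α) (max_lt ha hαK')
      exact ⟨b, hb, (le_max_left _ _).trans_lt hab, hbC, (le_max_right _ _).trans_lt hab⟩
    · intro x hx hx0 hxz
      refine ⟨hC₁.cls x hx hx0 fun y hy => ?_, ?_⟩
      · obtain ⟨z, hz, hyz, hzC⟩ := hxz y hy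
        exact ⟨z, hz, hyz, hzC.1⟩
      · obtain ⟨z, hz, -, hzC⟩ := hxz 0 hx0
        exact lt_trans hzC.2 hz
  obtain ⟨s, hs, hnot⟩ := hpos _ hC₂
  obtain ⟨F, hF⟩ : ∃ F, F = Fs K'.ord (j G) s := ⟨_, rfl⟩
  rw [← hF] at hnot
  have hnth : ∀ a < α, ∃ z, nth (SpS μ K'.ord F) a z := fun a ha =>
    ((HD.All.vh (SpS μ K'.ord F)).2.2.2 (Jo j δ)).resolve_left hnot a
      (ha.trans (hαη.trans h.Jo_crit))
  obtain ⟨-, hmono, -, -⟩ := HD.All.vh (SpS μ K'.ord F)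
  choose! y hy using hnth
  have hyK : ∀ a < α, y a < K'.ord := fun a ha => (hy a ha).1.1
  -- the supremum
  have hne : K'.ord ∈ {l | ∀ a < α, y a < l} := hyK
  obtain ⟨lam, hlam⟩ : ∃ lam : Ordinal.{u}, lam = sInf {l | ∀ a < α, y a < l} := ⟨_, rfl⟩
  have hlt : ∀ a < α, y a < lam := by
    rw [hlam]
    exact csInf_mem (s := {l | ∀ a < α, y a < l}) ⟨_, hne⟩
  have hle : lam ≤ K'.ord := by
    rw [hlam]
    exact csInf_le' hne
  have hinc : ∀ a b, a < b → b < α → y a < y b := fun a b hab hb =>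
    (hmono a b (y a) (y b) (hy a (hab.trans hb)) (hy b hb)).1 hab
  have hcof : ∀ z < lam, ∃ a < α, z < y a := by
    intro z hz
    rw [hlam] at hz
    have h6 : z ∉ {l | ∀ a < α, y a < l} := notMem_of_lt_csInf' hz
    simp only [mem_ofPred_eq, not_forall, not_lt] at h6
    obtain ⟨a, ha, h7⟩ := h6
    exact ⟨succ a, hlimα.succ_lt ha, h7.trans_lt (hinc a _ (lt_succ a) (hlimα.succ_lt ha))⟩
  have hllim : IsSuccLimit lam := by
    refine ⟨?_, isSuccPrelimit_of_succ_lt fun z hz => ?_⟩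
    · intro hmin
      exact absurd (hlt 0 hlimα.bot_lt) (not_lt.2 (hmin bot_le |>.trans bot_le))
    · obtain ⟨a, ha, h6⟩ := hcof z hz
      exact (succ_le_of_lt h6).trans_lt (hlt a ha)
  have hce : α.cof = lam.cof := Pool.Agent.H87.HD.XF.cof_eq y hinc hlt hcof
  have hlc : lam.cof.ord < δ := by
    rw [← hce]
    exact hcofα
  -- the second embedding
  obtain ⟨η', hη', θ', j', h'⟩ := HD.All.xa δ hext (max F.rank K'.ord)
  have hFη' : F ∈ V_ η' := ZFSet.mem_vonNeumann.2 (lt_of_le_of_lt (le_max_left _ _) hη')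
  have hKη' : K'.ord < η' := lt_of_le_of_lt (le_max_right _ _) hη'
  obtain ⟨ρ, hr1, hr2⟩ := TWS_sup h' hK' hKη'
  obtain ⟨ρ0, hq1, hq2⟩ := h3 δ η' θ' j' K' μ ρ F ⟨h', hK', hω, hδK.trans_le hKK', hKη', hωμ,
    hμδ, hFη', hr1, hr2⟩ hcofδ lam hle hllim hlc fun z hz => by
      obtain ⟨a, ha, h6⟩ := hcof z hz
      exact ⟨y a, h6, hlt a ha, (hy a ha).1.2⟩
  obtain ⟨hU, hFew⟩ := TWS_tr (α := α) (δ := δ) (fun a ha => ⟨y a, hlt a ha, hy a ha⟩)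
    (fun z hz => by
      obtain ⟨a, ha, h6⟩ := hcof z hz
      exact ⟨a, ha, y a, hy a ha, h6⟩) hq1 hq2
  -- the set
  have hOD : NF.ODp s (os α (BB μ K'.ord ρ0 lam F)) := by
    rw [hF]
    exact h5 μ K'.ord ρ0 lam α (j G) s hODG
  have hSml : Sml δ K'.ord C₁ s := by
    refine ⟨hs.ne, fun z hz => ?_, ?_⟩
    · obtain ⟨a, ha, haC, hac, hza⟩ := hs.mem z hz
      exact ⟨a, ha, haC.1, lt_of_le_of_lt hac hμδ, hza⟩
    · obtain ⟨g, hg⟩ := hs.few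
      exact ⟨μ, hμδ, g, hg⟩
  have hsub : os α (BB μ K'.ord ρ0 lam F) ⊆ α.toZFSet := by
    intro z hz
    obtain ⟨a, ha, -, rfl⟩ := mem_os.1 hz
    exact toZFSet_mem_toZFSet_iff.2 ha
  have hmin : ∀ z ∈ s, os α (BB μ K'.ord ρ0 lam F) ⊆ z := by
    intro z hz x hx
    obtain ⟨a, -, haC, -, rfl⟩ := hs.mem z hz
    obtain ⟨b, hb, -, rfl⟩ := mem_os.1 hx
    exact toZFSet_mem_toZFSet_iff.2 (lt_trans hb haC.2)
  obtain ⟨Z, hZ, hBZ, ν, hν, hsz⟩ := hNB s hSml _ hmin hOD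
  have hDα : D.ord ≤ α.card.ord := by
    rw [← hD]
    calc δ = δ.cof.ord := hcofδ.symm
      _ ≤ δ.card.ord := Cardinal.ord_le_ord.2 (Ordinal.cof_le_card δ)
      _ ≤ α.card.ord := Cardinal.ord_le_ord.2 (Ordinal.card_le_card hδα.le)
  rw [hD] at hν hFew
  refine h4 D hDr hD0 α hreg hDα Z hZ ⟨ν, Cardinal.ord_lt_ord.1 hν, hsz⟩ _ hBZ hsub
    (fun b hb => ?_) ?_
  · obtain ⟨c, hc, hbc, hcB⟩ := hU b hb
    exact ⟨c, hc, hbc, ord_mem_os.2 ⟨hc, hcB⟩⟩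
  · obtain ⟨τ, hτ, e, he⟩ := hFew
    exact ⟨τ, hτ, e, fun x hx => he x (ord_mem_os.1 hx).2⟩

end Pool.Agent.H19.PRP
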